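import Pool.Agent.MP_833094_lc.Mach

/-! Entry sets of oracles above the Halting problem: the necessary condition. -/

namespace Pool.Agent.MP_833094_lc.En

open Set Filter Topology Polynomial

section poly

variable {K : Subfield ℝ}

/-- Value of a polynomial in two variables. -/
noncomputable def ev (u v : ℝ) : K[X][X] →+* ℝ :=
  eval₂RingHom (aeval u : K[X] →ₐ[K] ℝ).toRingHom v

theorem ev_map (u v : ℝ) (F : K[X][X]) :
    ev u v F = (F.map (aeval u : K[X] →ₐ[K] ℝ).toRingHom).eval v := by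
  rw [ev, coe_eval₂RingHom, eval₂_eq_eval_map]

theorem ev_C (u v : ℝ) (k : K) : ev u v (C (C k)) = k := by simp [ev]; rfl

theorem aeval_mem {L : Subfield ℝ} (h : K ≤ L) {u : ℝ} (hu : u ∈ L) (f : K[X]) : aeval u f ∈ L := by
  induction f using Polynomial.induction_on' with
  | add p q a b => rw [map_add]; exact add_mem a b
  | monomial n k => rw [aeval_monomial]; exact mul_mem (h k.2) (pow_mem hu n)

theorem map_ne {a : ℝ} (ha : Transcendental K a) {F : K[X][X]} (h : F ≠ 0) :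
    F.map (aeval a : K[X] →ₐ[K] ℝ).toRingHom ≠ 0 :=
  (Polynomial.map_ne_zero_iff (transcendental_iff_injective.1 ha)).2 h

theorem ev_ne {L : Subfield ℝ} (h : K ≤ L) {a b : ℝ} (ha : Transcendental K a) (haL : a ∈ L)
    (hb : Transcendental L b) {F : K[X][X]} (hF : F ≠ 0) : ev a b F ≠ 0 := by
  have h1 : F.map (aeval a : K[X] →ₐ[K] ℝ).toRingHom ∈ lifts (algebraMap L ℝ) := by
    rw [lifts_iff_coeff_lifts]
    intro n
    rw [coeff_map]
    exact ⟨⟨_, aeval_mem h haL (F.coeff n)⟩, rfl⟩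
  obtain ⟨G, hG⟩ := (mem_lifts _).1 h1
  intro e
  refine hb ⟨G, fun g => map_ne ha hF (by rw [← hG, g, Polynomial.map_zero]), ?_⟩
  rw [ev_map, ← hG, eval_map_algebraMap] at e
  exact e

theorem ev_line (q : ℕ) (r : ℚ) (u : ℝ) (F : K[X][X]) :
    ev u (r - q * u) F = aeval u (F.eval (C (r : K) - C (q : K) * X)) := by
  have e : (r : ℝ) - q * u = (aeval u : K[X] →ₐ[K] ℝ).toRingHom (C (r : K) - C (q : K) * X) := by
    simp
  rw [e, ev, coe_eval₂RingHom, eval₂_at_apply]
  rfl

theorem line_zero {a : ℝ} (ha : Transcendental K a) {q : ℕ} {r : ℚ} {F : K[X][X]}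
    (h : ev a (r - q * a) F = 0) (u : ℝ) : ev u (r - q * u) F = 0 := by
  rw [ev_line] at h ⊢
  rw [transcendental_iff.1 ha _ h, map_zero]

/-- Lines of slope `-q` on which the quotient takes a value in the ground field. -/
def Flat (a : ℝ) (F G : K[X][X]) (q : ℕ) : Set ℚ :=
  {r | ev a (r - q * a) G ≠ 0 ∧ ∃ k : K, ev a (r - q * a) F = k * ev a (r - q * a) G}

theorem flat_once {a : ℝ} (ha : Transcendental K a) {F G : K[X][X]} (h : ∀ k : K, F ≠ C (C k) * G)
    {q q' : ℕ} (hq : q ≠ q') (h' : (Flat a F G q').Nonempty) : (Flat a F G q).Finite := by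
  obtain ⟨r', g', k', e'⟩ := h'
  have d : (q : ℝ) - q' ≠ 0 := sub_ne_zero.2 (by exact_mod_cast hq)
  have n1 : (G.eval (C (r' : K) - C (q' : K) * X)).map (algebraMap K ℝ) ≠ 0 := fun z => by
    rw [ev_line, ← eval_map_algebraMap, z, eval_zero] at g'
    exact g' rfl
  have n2 := map_ne ha (sub_ne_zero.2 (h k'))
  have f1 := (finite_setOfPred_isRoot n1).preimage
    (f := fun r : ℚ => ((r : ℝ) - r') / (q - q')) fun x _ y _ e => by
      have := (div_left_inj' d).1 e
      exact_mod_cast sub_left_injective this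
  have f2 := (finite_setOfPred_isRoot n2).preimage (f := fun r : ℚ => (r : ℝ) - q * a)
    fun x _ y _ e => by exact_mod_cast sub_left_injective e
  refine (f1.union f2).subset fun r ⟨_, k, e⟩ => ?_
  have z : ∀ (u v : ℝ) (k : K), ev u v (F - C (C k) * G) = ev u v F - k * ev u v G := fun u v k => by
    rw [map_sub, map_mul, ev_C]
  by_cases c : ev (((r : ℝ) - r') / (q - q')) (r' - q' * (((r : ℝ) - r') / (q - q'))) G = 0
  · left
    rw [ev_line, ← eval_map_algebraMap] at c
    exact c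
  · right
    have a1 := line_zero ha (F := F - C (C k) * G) (by rw [z, e, sub_self]) (((r : ℝ) - r') / (q - q'))
    have a2 := line_zero ha (F := F - C (C k') * G) (by rw [z, e', sub_self])
      (((r : ℝ) - r') / (q - q'))
    rw [show (r : ℝ) - q * (((r : ℝ) - r') / (q - q')) = r' - q' * (((r : ℝ) - r') / (q - q')) by
      field_simp; ring] at a1
    rw [z] at a1 a2
    have a3 : (k : ℝ) = k' := mul_right_cancel₀ c (by linarith)
    change IsRoot _ _
    rw [IsRoot, ← ev_map, z, e, a3, sub_self]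

theorem flat_eventually {a : ℝ} (ha : Transcendental K a) {F G : K[X][X]}
    (h : ∀ k : K, F ≠ C (C k) * G) : ∀ᶠ q in atTop, (Flat a F G q).Finite := by
  by_cases c : ∃ q', (Flat a F G q').Nonempty
  · obtain ⟨q', h'⟩ := c
    exact (eventually_gt_atTop q').mono fun q hq => flat_once ha h hq.ne' h'
  · exact Eventually.of_forall fun q => by
      rw [not_nonempty_iff_eq_empty.1 fun g => c ⟨q, g⟩]
      exact finite_empty

/-- Functions of the second variable given by a quotient of polynomials. -/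
def Rep (K : Subfield ℝ) (a : ℝ) (t : ℝ → ℝ) : Prop :=
  ∃ F G : K[X][X], G ≠ 0 ∧ ∀ v, ev a v G ≠ 0 → t v * ev a v G = ev a v F

theorem Rep.op {a : ℝ} {s t : ℝ → ℝ} (hs : Rep K a s) (ht : Rep K a t) (o : Op) :
    Rep K a fun v => o.ev (s v) (t v) := by
  obtain ⟨F, G, g, e⟩ := hs
  obtain ⟨F', G', g', e'⟩ := ht
  cases o
  · refine ⟨F * G' + F' * G, G * G', mul_ne_zero g g', fun v h => ?_⟩
    simp only [map_mul, map_add, mul_ne_zero_iff, Op.ev] at h ⊢
    rw [← e v h.1, ← e' v h.2]; ring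
  · refine ⟨F * G' - F' * G, G * G', mul_ne_zero g g', fun v h => ?_⟩
    simp only [map_mul, map_sub, mul_ne_zero_iff, Op.ev] at h ⊢
    rw [← e v h.1, ← e' v h.2]; ring
  · refine ⟨F * F', G * G', mul_ne_zero g g', fun v h => ?_⟩
    simp only [map_mul, mul_ne_zero_iff, Op.ev] at h ⊢
    rw [← e v h.1, ← e' v h.2]; ring
  · by_cases c : F' = 0
    · refine ⟨0, G', g', fun v h => ?_⟩
      have := e' v h
      rw [c, map_zero] at this
      simp [Op.ev, (mul_eq_zero.1 this).resolve_right h]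
    · refine ⟨F * G' * G', G * G' * F', mul_ne_zero (mul_ne_zero g g') c, fun v h => ?_⟩
      simp only [map_mul, mul_ne_zero_iff, Op.ev] at h ⊢
      have h3 := h.2
      rw [← e' v h.1.2] at h3 ⊢
      rw [← e v h.1.1]
      have := left_ne_zero_of_mul h3
      field_simp

theorem cont_ev (a : ℝ) (F : K[X][X]) : Continuous fun v => ev a v F := by
  simp only [ev_map]
  exact Polynomial.continuous _

end poly

theorem pos_choice {E : Set ℝ} {c : Set ℝ} {s : ℝ} (h1 : Transcendental (Subfield.closure c) s)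
    (h2 : ∀ e ∈ E, e ∈ Subfield.closure (insert s c) → e ∈ Subfield.closure c) :
    ∃ s : ℝ, 0 < s ∧ Transcendental (Subfield.closure c) s ∧
      ∀ e ∈ E, e ∈ Subfield.closure (insert s c) → e ∈ Subfield.closure c := by
  rcases lt_trichotomy s 0 with h | rfl | h
  · refine ⟨-s, by linarith, fun g => h1 (by simpa using g.neg), fun e he g => h2 e he ?_⟩
    refine Subfield.closure_le.2 (insert_subset ?_ fun x hx => ?_) g
    · exact neg_mem (Subfield.subset_closure (mem_insert _ _))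
    · exact Subfield.subset_closure (mem_insert_of_mem _ hx)
  · exact absurd isAlgebraic_zero h1
  · exact ⟨s, h, h1, h2⟩

theorem necessary {E : Set ℝ} {A : Set (List ℝ)} (hA : ∀ a ∈ A, ∀ e ∈ a, e ∈ E)
    (hR : Reduces Halting A) : ∃ c : Finset ℝ, ∀ s : ℝ,
      Transcendental (Subfield.closure (c : Set ℝ)) s → ∃ e ∈ E,
        e ∈ Subfield.closure (insert s (c : Set ℝ)) ∧ e ∉ Subfield.closure (c : Set ℝ) := by
  classical
  obtain ⟨p, hp⟩ := hR
  by_contra hn
  push Not at hn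
  obtain ⟨c, hc⟩ : ∃ c : Finset ℝ, c = (0 :: (p.code ++ rat.code)).toFinset := ⟨_, rfl⟩
  obtain ⟨a, a0, a1, a2⟩ := (hn c).elim fun _ h => pos_choice h.1 h.2
  obtain ⟨b, b0, b1, b2⟩ := (hn (insert a c)).elim fun _ h => pos_choice h.1 h.2
  rw [Finset.coe_insert] at b1 b2
  set K := Subfield.closure (c : Set ℝ) with hK
  set L := Subfield.closure (insert a (c : Set ℝ)) with hL
  have KL : K ≤ L := Subfield.closure_mono (subset_insert _ _)
  have aL : a ∈ L := Subfield.subset_closure (mem_insert _ _)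
  have lineL : ∀ (q : ℕ) (r : ℚ), (r : ℝ) - q * a ∈ L := fun q r =>
    sub_mem (SubfieldClass.ratCast_mem L r) (mul_mem (natCast_mem L q) aL)
  have bL : ∀ (q : ℕ) (r : ℚ), b ≠ r - q * a := fun q r e =>
    b1 (e ▸ isAlgebraic_algebraMap (⟨_, lineL q r⟩ : L))
  let T := {t : ℝ → ℝ // (∀ v, t v ∈ Subfield.closure (insert v (insert a (c : Set ℝ)))) ∧ Rep K a t}
  let Φ : Filter ℝ := atTop.bind fun q : ℕ => 𝓝 b ⊓ 𝓟 {v | ∃ r : ℚ, v = r - q * a}
  have up : ∀ {P : ℝ → Prop}, (∀ᶠ v in 𝓝 b, P v) → ∀ᶠ v in Φ, P v := fun h =>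
    eventually_bind.2 (Eventually.of_forall fun q => h.filter_mono inf_le_left)
  have dich : ∀ t : T, ContinuousAt t.1 b ∧ ((∀ᶠ v in 𝓝 b, t.1 v = t.1 b) ∨
      (t.1 b ≠ 0 ∧ t.1 b ∉ E ∧ ∀ᶠ v in Φ, t.1 v ∉ E)) := by
    rintro ⟨t, m, F, G, g, e⟩
    have g0 := ev_ne KL a1 aL b1 g
    have g1 : ∀ᶠ v in 𝓝 b, ev a v G ≠ 0 := (cont_ev a G).continuousAt.eventually_ne g0
    refine ⟨((cont_ev a F).continuousAt.div (cont_ev a G).continuousAt g0).congr
      (g1.mono fun v h => (eq_div_of_mul_eq h (e v h)).symm), ?_⟩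
    by_cases k : ∃ k : K, F = C (C k) * G
    · obtain ⟨k, rfl⟩ := k
      have : ∀ v, ev a v G ≠ 0 → t v = k := fun v h =>
        mul_right_cancel₀ h (by rw [e v h, map_mul, ev_C])
      exact Or.inl (g1.mono fun v h => (this v h).trans (this b g0).symm)
    push Not at k
    have nb : t b ∉ K := fun h => ev_ne KL a1 aL b1 (sub_ne_zero.2 (k ⟨_, h⟩)) (by
      rw [map_sub, map_mul, ev_C, ← e b g0, sub_self])
    refine Or.inr ⟨fun z : t b = 0 => nb (by rw [z]; exact zero_mem K), fun h => nb (a2 _ h (b2 _ h (m b))), ?_⟩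
    refine eventually_bind.2 ((flat_eventually a1 k).mono fun q hq => ?_)
    have h1 : ∀ᶠ v in 𝓝 b, v ∉ (fun r : ℚ => (r : ℝ) - q * a) '' Flat a F G q :=
      (hq.image _).isClosed.isOpen_compl.mem_nhds fun ⟨r, _, h⟩ => bL q r h.symm
    rw [eventually_inf_principal]
    filter_upwards [h1, g1] with v h2 h3
    rintro ⟨r, rfl⟩ h4
    have h5 : t (r - q * a) ∈ L := Subfield.closure_le.2
      (insert_subset (lineL q r) Subfield.subset_closure) (m _)
    exact h2 ⟨r, ⟨h3, ⟨_, a2 _ h4 h5⟩, (e _ h3).symm⟩, rfl⟩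
  have hge : ∀ t : T, ∀ᶠ v in Φ, (0 ≤ t.1 v ↔ 0 ≤ t.1 b) := fun t => up (by
    obtain ⟨h1, h2 | h2⟩ := dich t
    · exact h2.mono fun v h => by rw [h]
    · rcases h2.1.lt_or_gt with h | h
      · exact (h1.eventually_lt continuousAt_const h).mono fun v g => iff_of_false g.not_ge h.not_ge
      · exact (continuousAt_const.eventually_lt h1 h).mono fun v g => iff_of_true g.le h.le)
  have hask : ∀ M : List T, ∀ᶠ v in Φ, (M.map (·.1 v) ∈ A ↔ M.map (·.1 b) ∈ A) := fun M => by
    by_cases h : ∀ t ∈ M, ∀ᶠ v in 𝓝 b, t.1 v = t.1 b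
    · have : ∀ᶠ v in 𝓝 b, ∀ t ∈ {t | t ∈ M}, t.1 v = t.1 b :=
        (eventually_all_finite (List.finite_toSet M)).2 h
      exact up (this.mono fun v g => by rw [List.map_congr_left g])
    · push Not at h
      obtain ⟨t, h1, h2⟩ := h
      obtain ⟨-, h3, h4⟩ := (dich t).2.resolve_left (by simpa using h2)
      exact h4.mono fun v g => iff_of_false (fun z => g (hA _ z _ (List.mem_map_of_mem h1)))
        fun z => h3 (hA _ z _ (List.mem_map_of_mem h1))
  have hcon : ∀ x ∈ (c : Set ℝ), ∃ t : T, ∀ y, t.1 y = x := fun x h =>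
    ⟨⟨fun _ => x, fun _ => Subfield.subset_closure (Or.inr (Or.inr h)),
      C (C ⟨x, Subfield.subset_closure h⟩), 1, one_ne_zero, fun v _ => by simp [ev_C]⟩, fun _ => rfl⟩
  let ta : T := ⟨fun _ => a, fun _ => Subfield.subset_closure (Or.inr (Or.inl rfl)),
    C X, 1, one_ne_zero, fun v _ => by simp [ev]⟩
  let tv : T := ⟨fun v => v, fun _ => Subfield.subset_closure (Or.inl rfl),
    X, 1, one_ne_zero, fun v _ => by simp [ev]⟩
  obtain ⟨M, hM⟩ : ∃ M : List T, ∀ y, M.map (·.1 y) = rat.code ++ [a, y] := by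
    choose f hf using fun x : {x // x ∈ rat.code} => hcon x (by simp [hc])
    refine ⟨rat.code.attach.map f ++ [ta, tv], fun y => ?_⟩
    rw [List.map_append, List.map_map]
    exact congrArg₂ _ (by simp [Function.comp_def, hf]) rfl
  have hi : ∀ y, init (rat.code ++ [a, y]) =
      sem (fun (t : T) y => t.1 y) (fun i => if i = 0 then M else []) y := fun y => by
    funext i
    by_cases h : i = 0 <;> simp [init, sem, h, hM]
  obtain ⟨s, e, hs⟩ := hp (rat.code ++ [a, b])
  obtain ⟨σ, rfl, hσ⟩ := symb (F := Φ) (x := b) (hcon 0 (by simp [hc])) hcon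
    (fun o x y => ⟨⟨fun v => o.ev (x.1 v) (y.1 v), fun v => by
      cases o
      exacts [add_mem (x.2.1 v) (y.2.1 v), sub_mem (x.2.1 v) (y.2.1 v),
        mul_mem (x.2.1 v) (y.2.1 v), div_mem (x.2.1 v) (y.2.1 v)], x.2.2.op y.2.2 o⟩, fun _ => rfl⟩)
    hge hask e (fun x h => by simp [hc, h]) _ (hi b)
  obtain ⟨q, hq⟩ := (eventually_bind.1 hσ).exists
  rw [eventually_inf_principal] at hq
  obtain ⟨ε, ε0, hε⟩ := Metric.eventually_nhds_iff.1 hq
  obtain ⟨r, r1, r2⟩ := exists_rat_btwn (show b + q * a < b + q * a + ε by linarith)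
  have hy := hε (y := r - q * a) (by rw [Real.dist_eq, abs_lt]; constructor <;> linarith) ⟨r, rfl⟩
  obtain ⟨s', e', hs'⟩ := hp (rat.code ++ [a, r - q * a])
  rw [hi] at e'
  cases e'.det hy
  obtain ⟨s'', h⟩ := mem_halting.1 (hs.2 (by
    simpa [sem] using hs'.1 (mem_halting.2 (rat_halts (q := q) (r := r) (by simp [hor]; ring)))))
  refine rat_runs (fun n => ?_) s'' h
  have e1 : hor (n : ℝ) 0 [a, b] = a * n + b := by simp [hor]
  rw [e1]
  exact ⟨by positivity, fun ⟨r, hr⟩ => bL n r (by linarith)⟩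

end Pool.Agent.MP_833094_lc.En
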