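import Pool.Agent.MP_833094_lc.Ana
import Pool.Agent.MP_833094_lc.En.Nec

/-! Null sets, meagre sets and sets of size below the continuum are not entry sets. -/

namespace Pool.Agent.MP_833094_lc.En

open Set Filter Topology Polynomial MeasureTheory

theorem closure_countable (c : Finset ℝ) : Countable (Subfield.closure (c : Set ℝ)) := by
  rw [← Cardinal.mk_le_aleph0_iff]
  exact (Subfield.cardinalMk_closure_le_max _).trans
    (max_le (Cardinal.mk_le_aleph0_iff.2 c.countable_toSet.to_subtype) le_rfl)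

/-- The line is covered by a countable set and countably many preimages under local
diffeomorphisms. -/
theorem cover {E : Set ℝ} {A : Set (List ℝ)} (hA : ∀ a ∈ A, ∀ e ∈ a, e ∈ E)
    (hR : Reduces Halting A) : ∃ (ι : Type) (_ : Countable ι) (N : Set ℝ) (W : ι → Set ℝ)
      (φ : ι → ℝ → ℝ), N.Countable ∧ (∀ i, IsOpen (W i)) ∧
      (∀ i, ∀ y ∈ W i, ContDiffAt ℝ 1 (φ i) y ∧ deriv (φ i) y ≠ 0) ∧
      univ ⊆ N ∪ ⋃ i, W i ∩ φ i ⁻¹' E := by
  classical
  obtain ⟨c, h⟩ := necessary hA hR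
  have k := closure_countable c
  set K := Subfield.closure (c : Set ℝ) with hK
  have : Countable K[X] := by
    rw [← Cardinal.mk_le_aleph0_iff]
    exact Polynomial.cardinalMk_le_max.trans (max_le (Cardinal.mk_le_aleph0_iff.2 k) le_rfl)
  refine ⟨K[X] × K[X], inferInstance, {z | IsAlgebraic K z},
    fun p => {y | aeval y p.2 ≠ 0 ∧ aeval y (wronskian p.2 p.1) ≠ 0},
    fun p y => aeval y p.1 / aeval y p.2, Algebraic.countable K ℝ, fun p => ?_, ?_, fun z _ => ?_⟩
  · exact (isOpen_ne_fun (p.2.continuous_aeval) continuous_const).inter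
      (isOpen_ne_fun (Polynomial.continuous_aeval _) continuous_const)
  · rintro ⟨r, s⟩ y ⟨h1, h2⟩
    refine ⟨((r.contDiff_aeval 1).contDiffAt).div ((s.contDiff_aeval 1).contDiffAt) h1, ?_⟩
    have := ((r.hasDerivAt_aeval y).div (s.hasDerivAt_aeval y) h1).deriv
    change deriv ((fun y => aeval y r) / fun y => aeval y s) y ≠ 0
    rw [this]
    refine div_ne_zero (fun g => h2 ?_) (pow_ne_zero 2 h1)
    simp only [wronskian, map_sub, map_mul]
    linarith
  by_cases t : IsAlgebraic K z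
  · exact Or.inl t
  obtain ⟨e, he, m, nm⟩ := h z t
  have m' : e ∈ IntermediateField.adjoin K {z} :=
    Subfield.closure_le (t := (IntermediateField.adjoin K {z}).toSubfield) |>.2
      (Set.insert_subset (IntermediateField.mem_adjoin_simple_self K z) fun x hx =>
        (IntermediateField.adjoin K {z}).algebraMap_mem ⟨x, Subfield.subset_closure hx⟩) m
  obtain ⟨r, s, e1⟩ := (IntermediateField.mem_adjoin_simple_iff K e).1 m'
  have nz : ∀ p : K[X], p ≠ 0 → aeval z p ≠ 0 := fun p hp g => t ⟨p, hp, g⟩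
  have s0 : s ≠ 0 := fun g => nm (by rw [e1, g, map_zero, div_zero]; exact zero_mem K)
  have g0 : gcd s r ≠ 0 := gcd_ne_zero_of_left s0
  obtain ⟨r', hr⟩ : ∃ r', r' = r / gcd s r := ⟨_, rfl⟩
  obtain ⟨s', hs⟩ : ∃ s', s' = s / gcd s r := ⟨_, rfl⟩
  have a1 : gcd s r * r' = r := hr ▸ EuclideanDomain.mul_div_cancel' g0 (gcd_dvd_right s r)
  have a2 : gcd s r * s' = s := hs ▸ EuclideanDomain.mul_div_cancel' g0 (gcd_dvd_left s r)
  have s1 : s' ≠ 0 := fun g => s0 (by rw [← a2, g, mul_zero])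
  have e2 : e = aeval z r' / aeval z s' := by
    rw [← mul_div_mul_left _ _ (nz _ g0), ← map_mul, ← map_mul, a1, a2, e1]
  refine Or.inr (mem_iUnion.2 ⟨(r', s'), ⟨nz _ s1, nz _ fun w => nm ?_⟩, by
    simp only [mem_preimage, ← e2, he]⟩)
  have co : IsCoprime s' r' := by
    rw [hr, hs]
    exact isCoprime_div_gcd_div_gcd_of_gcd_ne_zero g0
  obtain ⟨b1, b2⟩ := co.wronskian_eq_zero_iff.1 w
  rw [e2, eq_C_of_derivative_eq_zero b1, eq_C_of_derivative_eq_zero b2, aeval_C, aeval_C]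
  exact div_mem (r'.coeff 0).2 (s'.coeff 0).2

theorem not_meagre {E : Set ℝ} {A : Set (List ℝ)} (hA : ∀ a ∈ A, ∀ e ∈ a, e ∈ E)
    (hR : Reduces Halting A) : ¬ IsMeagre E := fun hE => by
  obtain ⟨ι, _, N, W, φ, a, b, c, d⟩ := cover hA hR
  refine not_isMeagre_of_isOpen isOpen_univ univ_nonempty (IsMeagre.mono d
    (IsMeagre.union ?_ (isMeagre_iUnion fun i => meagre_pre (b i) (fun u hu => ?_) hE)))
  · rw [← biUnion_of_singleton N]
    exact isMeagre_biUnion a fun x _ => (isClosed_singleton.isNowhereDense_iff.2 (interior_singleton x)).isMeagre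
  · refine ⟨_, ((c i u hu).1.hasStrictDerivAt one_ne_zero).hasStrictFDerivAt, fun t =>
      ⟨t / deriv (φ i) u, ?_⟩⟩
    simp [(c i u hu).2]

theorem local_inv {φ : ℝ → ℝ} {y : ℝ} (h : ContDiffAt ℝ 1 φ y) (h' : deriv φ y ≠ 0) :
    ∃ (ψ : ℝ → ℝ) (V : Set ℝ), DifferentiableOn ℝ ψ V ∧ ∀ᶠ x in 𝓝 y, φ x ∈ V ∧ ψ (φ x) = x := by
  have d := (h.hasStrictDerivAt one_ne_zero).hasDerivAt.hasFDerivAt_equiv h'
  obtain ⟨V, v1, v2⟩ := (h.to_localInverse d one_ne_zero).contDiffOn le_rfl (by simp)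
  exact ⟨_, V, v2.differentiableOn one_ne_zero, (h.continuousAt.eventually v1).and
    (h.hasStrictFDerivAt' d one_ne_zero).eventually_left_inverse⟩

theorem not_null {E : Set ℝ} {A : Set (List ℝ)} (hA : ∀ a ∈ A, ∀ e ∈ a, e ∈ E)
    (hR : Reduces Halting A) : volume E ≠ 0 := fun hE => by
  obtain ⟨ι, _, N, W, φ, a, b, c, d⟩ := cover hA hR
  have : volume (univ : Set ℝ) = 0 := measure_mono_null d (measure_union_null (a.measure_zero _)
    (measure_iUnion_null fun i => measure_null_of_locally_null _ fun y hy => by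
      obtain ⟨ψ, V, p, q⟩ := local_inv (c i y hy.1).1 (c i y hy.1).2
      refine ⟨ψ '' (V ∩ E), ?_, addHaar_image_eq_zero_of_differentiableOn_of_addHaar_eq_zero _
        (p.mono inter_subset_left) (measure_mono_null inter_subset_right hE)⟩
      filter_upwards [mem_nhdsWithin_of_mem_nhds q, self_mem_nhdsWithin] with x g1 g2
      exact ⟨_, ⟨g1.1, g2.2⟩, g1.2⟩))
  simp at this

theorem not_small {E : Set ℝ} {A : Set (List ℝ)} (hA : ∀ a ∈ A, ∀ e ∈ a, e ∈ E)
    (hR : Reduces Halting A) : Cardinal.mk E = Cardinal.continuum := by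
  refine le_antisymm ((Cardinal.mk_set_le E).trans Cardinal.mk_real.le) (not_lt.1 fun hE => ?_)
  obtain ⟨ι, _, N, W, φ, a, b, c, d⟩ := cover hA hR
  have h1 : ∀ i, Cardinal.mk (W i ∩ φ i ⁻¹' E : Set ℝ) ≤ max (Cardinal.mk E) Cardinal.aleph0 := by
    intro i
    choose! ψ V p q using fun y (hy : y ∈ W i) => local_inv (c i y hy).1 (c i y hy).2
    obtain ⟨t, t1, t2, t3⟩ := TopologicalSpace.countable_cover_nhdsWithin (s := W i)
      (f := fun y => {x | φ i x ∈ V y ∧ ψ y (φ i x) = x})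
      fun y hy => mem_nhdsWithin_of_mem_nhds (q y hy)
    have : (W i ∩ φ i ⁻¹' E : Set ℝ) ⊆ range fun p : t × E => ψ p.1 p.2 := fun x hx => by
      obtain ⟨y, y1, y2⟩ := mem_iUnion₂.1 (t3 hx.1)
      exact ⟨(⟨y, y1⟩, ⟨_, hx.2⟩), y2.2⟩
    refine (Cardinal.mk_le_mk_of_subset this).trans (Cardinal.mk_range_le.trans ?_)
    rw [Cardinal.mk_prod, Cardinal.lift_id, Cardinal.lift_id]
    exact (Cardinal.mul_le_max _ _).trans (max_le (max_le
      ((Cardinal.le_aleph0_iff_set_countable.2 t2).trans (le_max_right _ _)) (le_max_left _ _))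
      (le_max_right _ _))
  have m : Cardinal.aleph0 ≤ max (Cardinal.mk E) Cardinal.aleph0 := le_max_right _ _
  have h2 := (Cardinal.mk_le_mk_of_subset d).trans ((Cardinal.mk_union_le _ _).trans
    (Cardinal.add_le_of_le m ((Cardinal.le_aleph0_iff_set_countable.2 a).trans m)
      ((Cardinal.mk_iUnion_le _).trans (Cardinal.mul_le_of_le m (Cardinal.mk_le_aleph0.trans m)
        (ciSup_le' h1)))))
  rw [Cardinal.mk_univ, Cardinal.mk_real] at h2
  exact h2.not_gt (max_lt hE Cardinal.aleph0_lt_continuum)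

end Pool.Agent.MP_833094_lc.En
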