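import Pool.Agent.MP_833094_lc.Basic

/-! Replacing oracle questions by a subroutine. -/

namespace Pool.Agent.MP_833094_lc.En

open Function

/-- Stacks outside the work area. -/
def Out (j : ℕ) : Prop := j < 2 ∨ 21 < j

/-- Renaming of stacks that avoids the work area. -/
def rn (i : ℕ) : ℕ := if i < 2 then i else i + 20

theorem out_rn (i : ℕ) : Out (rn i) := by unfold Out rn; split_ifs <;> omega

theorem rn_inj {i j : ℕ} : rn i = rn j ↔ i = j := by unfold rn; split_ifs <;> omega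

/-- All stacks written by the program satisfy `P`. -/
def Wr (P : ℕ → Prop) : Prog → Prop
  | .push i _ => P i
  | .pop i => P i
  | .op _ _ _ k => P k
  | .seq p q => Wr P p ∧ Wr P q
  | .ite _ p q => Wr P p ∧ Wr P q
  | .loop _ p => Wr P p

theorem frame {A : Set (List ℝ)} {P : ℕ → Prop} {p : Prog} {u u' : State} (h : Eval A p u u')
    (w : Wr P p) {j : ℕ} (hj : ¬ P j) : u' j = u j := by
  induction h with
  | push i c s => exact update_of_ne (by rintro rfl; exact hj w) ..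
  | pop i s => exact update_of_ne (by rintro rfl; exact hj w) ..
  | op o i j k s => exact update_of_ne (by rintro rfl; exact hj w) ..
  | seq _ _ a b => exact (b w.2).trans (a w.1)
  | iteT _ _ a => exact a w.1
  | iteF _ _ a => exact a w.2
  | loopT _ _ _ a b => exact (b w).trans (a w)
  | loopF _ => rfl

/-- Translated test. -/
def tt : Test → Test
  | .ge i => .ge (rn i)
  | .empty i => .empty (rn i)
  | .ask _ => .ge 2
  | .not t => .not (tt t)

variable (sub : ℕ → Prog)

/-- Preparation of a test. -/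
def pre : Test → Prog
  | .ge _ => .pop 2
  | .empty _ => .pop 2
  | .ask i => sub (rn i)
  | .not t => pre t

/-- Translated program. -/
def tr : Prog → Prog
  | .push i c => .push (rn i) c
  | .pop i => .pop (rn i)
  | .op o i j k => .op o (rn i) (rn j) (rn k)
  | .seq p q => .seq (tr p) (tr q)
  | .ite t p q => .seq (pre sub t) (.ite (tt t) (tr p) (tr q))
  | .loop t p => .seq (pre sub t) (.loop (tt t) (.seq (tr p) (pre sub t)))

variable {sub} {A B : Set (List ℝ)}

theorem rel_update {s u : State} (h : ∀ i, u (rn i) = s i) (k : ℕ) (l : List ℝ) (i : ℕ) :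
    update u (rn k) l (rn i) = update s k l i := by
  by_cases e : i = k
  · subst e; simp
  · rw [update_of_ne e, update_of_ne (mt rn_inj.1 e), h]

variable (hs : ∀ j, Out j → ∀ u, ∃ u', Eval A (sub j) u u' ∧ (∀ k, Out k → u' k = u k) ∧
  (0 ≤ (u' 2).headD 0 ↔ u j ∈ B))
include hs

theorem pre_spec (t : Test) {s u : State} (h : ∀ i, u (rn i) = s i) :
    ∃ u', Eval A (pre sub t) u u' ∧ (∀ i, u' (rn i) = s i) ∧ ((tt t).Holds A u' ↔ t.Holds B s) := by
  have two : ∀ i, update u 2 (u 2).tail (rn i) = s i := fun i => by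
    rw [update_of_ne (by have := out_rn i; unfold Out at this; omega), h]
  induction t with
  | ge i => exact ⟨_, .pop .., two, by simp only [tt, Test.Holds, two]⟩
  | empty i => exact ⟨_, .pop .., two, by simp only [tt, Test.Holds, two]⟩
  | ask i =>
    obtain ⟨u', e, f, g⟩ := hs _ (out_rn i) u
    exact ⟨u', e, fun k => (f _ (out_rn k)).trans (h k), by rw [h] at g; exact g⟩
  | not t ih =>
    obtain ⟨u', e, f, g⟩ := ih
    exact ⟨u', e, f, not_congr g⟩

theorem tr_spec {p : Prog} {s s' : State} (h : Eval B p s s') :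
    ∀ u : State, (∀ i, u (rn i) = s i) → ∃ u', Eval A (tr sub p) u u' ∧ ∀ i, u' (rn i) = s' i := by
  induction h with
  | push i c s => exact fun u r => ⟨_, .push .., by rw [r]; exact rel_update r _ _⟩
  | pop i s => exact fun u r => ⟨_, .pop .., by rw [r]; exact rel_update r _ _⟩
  | op o i j k s => exact fun u r => ⟨_, .op .., by rw [r, r, r]; exact rel_update r _ _⟩
  | seq _ _ a b =>
    intro u r
    obtain ⟨u₁, e₁, r₁⟩ := a u r
    obtain ⟨u₂, e₂, r₂⟩ := b u₁ r₁
    exact ⟨u₂, .seq e₁ e₂, r₂⟩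
  | @iteT t _ _ _ _ h _ a =>
    intro u r
    obtain ⟨u₁, e₁, r₁, g⟩ := pre_spec hs t r
    obtain ⟨u₂, e₂, r₂⟩ := a u₁ r₁
    exact ⟨u₂, .seq e₁ (.iteT (g.2 h) e₂), r₂⟩
  | @iteF t _ _ _ _ h _ a =>
    intro u r
    obtain ⟨u₁, e₁, r₁, g⟩ := pre_spec hs t r
    obtain ⟨u₂, e₂, r₂⟩ := a u₁ r₁
    exact ⟨u₂, .seq e₁ (.iteF (mt g.1 h) e₂), r₂⟩
  | @loopT t _ _ _ _ h _ _ a b =>
    intro u r
    obtain ⟨u₁, e₁, r₁, g⟩ := pre_spec hs t r
    obtain ⟨u₂, e₂, r₂⟩ := a u₁ r₁
    obtain ⟨u₃, e₃, r₃⟩ := b u₂ r₂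
    cases e₃ with
    | seq x y => exact ⟨u₃, .seq e₁ (.loopT (g.2 h) (.seq e₂ x) y), r₃⟩
  | @loopF t _ _ h =>
    intro u r
    obtain ⟨u₁, e₁, r₁, g⟩ := pre_spec hs t r
    exact ⟨u₁, .seq e₁ (.loopF (mt g.1 h)), r₁⟩

theorem reduces_sub {S : Set (List ℝ)} (h : Reduces S B) : Reduces S A := by
  obtain ⟨p, hp⟩ := h
  refine ⟨tr sub p, fun x => ?_⟩
  obtain ⟨s, e, g⟩ := hp x
  obtain ⟨u, e', r⟩ := tr_spec hs e (init x) fun i => by
    have : rn i = 0 ↔ i = 0 := rn_inj (j := 0)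
    simp only [init, this]
  exact ⟨u, e', by rw [← r 1] at g; exact g⟩

end Pool.Agent.MP_833094_lc.En
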