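import Mathlib

/-! A stack calculator driven by an infinite tape that contains every finite word. -/

namespace Pool.Agent.MP_833094_lc.En

open Polynomial

/-- One instruction of the calculator. -/
noncomputable def step (cs : List ℝ) (z : ℝ) (m : List ℝ × List ℝ) : ℕ → List ℝ × List ℝ
  | 0 => (z :: (cs ++ m.1), m.2)
  | 1 => (m.1.tail, m.2)
  | 2 => (m.1, m.1.headD 0 :: m.2)
  | 3 => (m.1, (m.2.tail.headD 0 - m.2.headD 0) :: m.2.tail.tail)
  | _ + 4 => (m.1, (m.2.tail.headD 0 / m.2.headD 0) :: m.2.tail.tail)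

/-- Functions computed by a word. -/
def Comp (cs : List ℝ) (f : ℝ → ℝ) : Prop :=
  ∃ w : List ℕ, (∀ x ∈ w, x ≤ 4) ∧ ∀ z m, (w.foldl (step cs z) m).2 = f z :: m.2

variable {cs : List ℝ} {f g : ℝ → ℝ}

theorem Comp.sub (hf : Comp cs f) (hg : Comp cs g) : Comp cs fun z => f z - g z := by
  obtain ⟨w, a, b⟩ := hf
  obtain ⟨w', a', b'⟩ := hg
  refine ⟨w ++ w' ++ [3], by simpa [or_imp, forall_and] using ⟨a, a'⟩, fun z m => ?_⟩
  simp [List.foldl_append, step, b, b']

theorem Comp.div (hf : Comp cs f) (hg : Comp cs g) : Comp cs fun z => f z / g z := by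
  obtain ⟨w, a, b⟩ := hf
  obtain ⟨w', a', b'⟩ := hg
  refine ⟨w ++ w' ++ [4], by simpa [or_imp, forall_and] using ⟨a, a'⟩, fun z m => ?_⟩
  simp [List.foldl_append, step, b, b']

theorem Comp.id : Comp cs fun z => z := ⟨[0, 2], by simp, fun z m => by simp [step]⟩

theorem pops (z : ℝ) (k : ℕ) : ∀ m : List ℝ × List ℝ,
    (List.replicate k 1).foldl (step cs z) m = (m.1.drop k, m.2) := by
  induction k with
  | zero => simp
  | succ k ih => intro m; simp [List.replicate_succ, ih, step]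

theorem Comp.const {c : ℝ} (h : c ∈ cs) : Comp cs fun _ => c := by
  obtain ⟨s, t, rfl⟩ := List.append_of_mem h
  refine ⟨[0] ++ List.replicate (s.length + 1) 1 ++ [2], by simp +contextual [or_imp], fun z m => ?_⟩
  rw [List.foldl_append, List.foldl_append, pops]
  simp [step]

theorem Comp.zero : Comp cs fun _ => 0 := by simpa using (Comp.id (cs := cs)).sub Comp.id

theorem Comp.add (hf : Comp cs f) (hg : Comp cs g) : Comp cs fun z => f z + g z := by
  simpa using hf.sub (Comp.zero.sub hg)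

theorem Comp.mul (h1 : 1 ∈ cs) (hf : Comp cs f) (hg : Comp cs g) : Comp cs fun z => f z * g z := by
  simpa using hf.div ((Comp.const h1).div hg)

theorem Comp.field (h1 : 1 ∈ cs) {c : Set ℝ} (hc : ∀ x ∈ c, x ∈ cs) {x : ℝ}
    (hx : x ∈ Subfield.closure c) : Comp cs fun _ => x := by
  induction hx using Subfield.closure_induction with
  | mem x h => exact Comp.const (hc x h)
  | one => exact Comp.const h1
  | add x y _ _ a b => exact a.add b
  | neg x _ a => simpa using Comp.zero.sub a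
  | inv x _ a => simpa using (Comp.const h1).div a
  | mul x y _ _ a b => exact a.mul h1 b

theorem Comp.poly (h1 : 1 ∈ cs) {c : Set ℝ} (hc : ∀ x ∈ c, x ∈ cs) (p : (Subfield.closure c)[X]) :
    Comp cs fun z => aeval z p := by
  induction p using Polynomial.induction_on with
  | C k => simp only [aeval_C]; exact Comp.field h1 hc k.2
  | add p q a b => simpa using a.add b
  | monomial n k a => simpa [pow_succ, mul_assoc] using a.mul h1 Comp.id

theorem exists_tape : ∃ d : ℕ → ℕ, (∀ n, d n ≤ 4) ∧ ∀ w : List ℕ, (∀ x ∈ w, x ≤ 4) → ∀ N,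
    ∃ m, N ≤ m ∧ ∀ i (h : i < w.length), d (m + i) = w[i] := by
  refine ⟨fun n => min ((Denumerable.ofNat (List ℕ) (Nat.unpair n.sqrt).1).getD
    (n - n.sqrt * n.sqrt) 0) 4, fun n => min_le_right _ _, fun w hw N => ?_⟩
  obtain ⟨k, hk⟩ : ∃ k, k = Nat.pair (Encodable.encode w) (N + w.length) := ⟨_, rfl⟩
  have h1 : N + w.length ≤ k := hk ▸ Nat.right_le_pair _ _
  refine ⟨k * k, by nlinarith [Nat.le_mul_self k], fun i h => ?_⟩
  have h2 : (k * k + i).sqrt = k := Nat.sqrt_add_eq k (by omega)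
  have h3 : (Nat.unpair k).1 = Encodable.encode w := by rw [hk, Nat.unpair_pair]
  simp only [h2, h3, Denumerable.ofNat_encode, Nat.add_sub_cancel_left]
  rw [List.getD_eq_getElem _ _ h]
  exact min_eq_left (hw _ (List.getElem_mem h))

/-- State of the calculator after `n` instructions. -/
noncomputable def st (cs : List ℝ) (d : ℕ → ℕ) (z : ℝ) : ℕ → List ℝ × List ℝ
  | 0 => ([], [])
  | n + 1 => step cs z (st cs d z n) (d n)

theorem st_block {d : ℕ → ℕ} (z : ℝ) (w : List ℕ) : ∀ m, (∀ i (h : i < w.length), d (m + i) = w[i]) →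
    st cs d z (m + w.length) = w.foldl (step cs z) (st cs d z m) := by
  induction w with
  | nil => simp
  | cons x w ih =>
    intro m h
    have h0 : d m = x := h 0 (by simp)
    have := ih (m + 1) fun i hi => by
      have := h (i + 1) (by simpa using hi)
      rwa [show m + (i + 1) = m + 1 + i by omega] at this
    rw [List.length_cons, show m + (w.length + 1) = m + 1 + w.length by omega, this, st, h0]
    rfl

theorem exists_good (cs : List ℝ) : ∃ d : ℕ → ℕ, (∀ n, d n ≤ 4) ∧ ∀ f, Comp cs f → ∀ N,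
    ∃ n, N ≤ n ∧ ∀ z, (st cs d z n).2.headD 0 = f z := by
  obtain ⟨d, h1, h2⟩ := exists_tape
  refine ⟨d, h1, fun f ⟨w, a, b⟩ N => ?_⟩
  obtain ⟨m, c, e⟩ := h2 w a N
  exact ⟨m + w.length, by omega, fun z => by rw [st_block z w m e, b]; rfl⟩

theorem exists_omega {d : ℕ → ℕ} (hd : ∀ n, d n ≤ 4) : ∃ ω : ℕ → ℝ, ∀ n,
    0 ≤ ω n ∧ ω n ≤ 1 ∧ 10 * ω n = 2 * d n + ω (n + 1) := by
  have g := hasSum_geometric_of_lt_one (r := (1 / 10 : ℝ)) (by norm_num) (by norm_num)
  have le : ∀ n j, (d (n + j) : ℝ) / 5 * (1 / 10) ^ j ≤ 4 / 5 * (1 / 10) ^ j := fun n j => by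
    have : (d (n + j) : ℝ) ≤ 4 := by exact_mod_cast hd _
    gcongr
  have sm : ∀ n, Summable fun j => (d (n + j) : ℝ) / 5 * (1 / 10) ^ j := fun n =>
    Summable.of_nonneg_of_le (fun j => by positivity) (le n) (g.summable.mul_left _)
  refine ⟨fun n => ∑' j, (d (n + j) : ℝ) / 5 * (1 / 10) ^ j, fun n =>
    ⟨tsum_nonneg fun j => by positivity, ?_, ?_⟩⟩
  · refine ((sm n).tsum_le_tsum (le n) (g.summable.mul_left _)).trans ?_
    rw [(g.mul_left _).tsum_eq]
    norm_num
  · simp only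
    rw [(sm n).tsum_eq_zero_add, mul_add, ← tsum_mul_left]
    congr 1
    · simp; ring
    · exact tsum_congr fun j => by rw [show n + (j + 1) = n + 1 + j by omega]; ring

end Pool.Agent.MP_833094_lc.En
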