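import Pool.Agent.MP_833094_lc.Line
import Pool.Agent.MP_833094_lc.En.Sub
import Pool.Agent.MP_833094_lc.En.Tape

/-! The machine that runs the calculator and builds constant lists. -/

namespace Pool.Agent.MP_833094_lc.En

open Function

variable {A : Set (List ℝ)} (cs : List ℝ)

/-- Push all constants. -/
def pa : List ℝ → Prog
  | [] => .pop 15
  | c :: l => .seq (pa l) (.push 6 c)

theorem pa_wr : Wr (fun j => j = 6 ∨ j = 15) (pa cs) := by
  induction cs with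
  | nil => simp [pa, Wr]
  | cons c l ih => exact ⟨ih, Or.inl rfl⟩

theorem pa_spec (u : State) : ∃ u', Eval A (pa cs) u u' ∧ u' 6 = cs ++ u 6 := by
  induction cs with
  | nil => exact ⟨_, .pop .., by simp⟩
  | cons c l ih =>
    obtain ⟨u', e, h⟩ := ih
    exact ⟨_, .seq e (.push ..), by simp [h]⟩

theorem Wr.mono {P Q : ℕ → Prop} (h : ∀ j, P j → Q j) {p : Prog} (w : Wr P p) : Wr Q p := by
  induction p with
  | push => exact h _ w
  | pop => exact h _ w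
  | op => exact h _ w
  | seq _ _ a b => exact ⟨a w.1, b w.2⟩
  | ite _ _ _ a b => exact ⟨a w.1, b w.2⟩
  | loop _ _ a => exact a w

/-- A binary operation on the two top entries of stack 7. -/
def bin (o : Op) : Prog := sq [.op .add 7 4 8, .pop 7, .op o 7 8 9, .pop 7, .op .add 9 4 7]

/-- One instruction. -/
def act : ℕ → Prog
  | 0 => .seq (pa cs) (.op .add 3 4 6)
  | 1 => .pop 6
  | 2 => .op .add 6 4 7
  | 3 => bin .sub
  | _ + 4 => bin .div

theorem act_wr (d : ℕ) : Wr (fun j => 6 ≤ j ∧ j ≤ 9 ∨ j = 15) (act cs d) := by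
  rcases d with _ | _ | _ | _ | d
  · exact ⟨(pa_wr cs).mono (by omega), by simp [Wr]⟩
  all_goals simp [act, bin, sq, Wr]

theorem act_spec (d : ℕ) {z : ℝ} {u : State} (h3 : (u 3).headD 0 = z) (h4 : (u 4).headD 0 = 0) :
    ∃ u', Eval A (act cs d) u u' ∧ (u' 6, u' 7) = step cs z (u 6, u 7) d := by
  simp only [List.headD_eq_head?_getD] at h3 h4
  rcases d with _ | _ | _ | _ | d
  · obtain ⟨u', e, h⟩ := pa_spec (A := A) cs u
    have f := fun j => frame e (pa_wr cs) (j := j)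
    exact ⟨_, .seq e (.op ..), by simp [step, h, f, h3, h4, Op.ev]⟩
  · exact ⟨_, .pop .., by simp [step]⟩
  · exact ⟨_, .op .., by simp [step, h4, Op.ev]⟩
  · exact ⟨_, .seq (.op ..) (.seq (.pop ..) (.seq (.op ..) (.seq (.pop ..) (.op ..)))),
      by simp [step, h4, Op.ev]⟩
  · exact ⟨_, .seq (.op ..) (.seq (.pop ..) (.seq (.op ..) (.seq (.pop ..) (.op ..)))),
      by simp [step, h4, Op.ev]⟩

/-- Read a digit and perform the instruction. -/
def dec : ℕ → Prog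
  | 0 => sq [.push 15 0, .op .sub 8 15 5, act cs 0]
  | k + 1 => sq [.push 15 (2 * (k + 1)), .op .sub 8 15 5, .ite (.ge 5) (act cs (k + 1)) (dec k)]

theorem dec_wr (k : ℕ) : Wr (fun j => 5 ≤ j ∧ j ≤ 9 ∨ j = 15) (dec cs k) := by
  induction k with
  | zero => exact ⟨by simp [Wr], by simp [Wr], (act_wr cs 0).mono (by omega)⟩
  | succ k ih => exact ⟨by simp [Wr], by simp [Wr], (act_wr cs _).mono (by omega), ih⟩

theorem dec_spec {d : ℕ} {z w : ℝ} (w0 : 0 ≤ w) (w1 : w ≤ 1) (k : ℕ) : ∀ u : State, d ≤ k →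
    (u 3).headD 0 = z → (u 4).headD 0 = 0 → (u 8).headD 0 = 2 * d + w →
    ∃ u', Eval A (dec cs k) u u' ∧ (u' 6, u' 7) = step cs z (u 6, u 7) d ∧ (u' 5).headD 0 = w := by
  have key : ∀ (c : ℝ) (u : State), (u 3).headD 0 = z → (u 4).headD 0 = 0 →
      (u 8).headD 0 = 2 * d + w → ∃ u₁, (∀ p u', Eval A p u₁ u' →
        Eval A (sq [.push 15 c, .op .sub 8 15 5, p]) u u') ∧ (u₁ 3).headD 0 = z ∧
        (u₁ 4).headD 0 = 0 ∧ (u₁ 8).headD 0 = 2 * d + w ∧ (u₁ 5).headD 0 = 2 * d + w - c ∧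
        u₁ 6 = u 6 ∧ u₁ 7 = u 7 := fun c u h3 h4 h8 => by
    simp only [List.headD_eq_head?_getD] at h3 h4 h8
    exact ⟨_, fun p u' e => .seq (.push ..) (.seq (.op ..) e), by simp [h3, h4, h8, Op.ev]⟩
  induction k with
  | zero =>
    intro u hd h3 h4 h8
    obtain rfl : d = 0 := by omega
    obtain ⟨u₁, e, a3, a4, -, a5, a6, a7⟩ := key 0 u h3 h4 h8
    obtain ⟨u', e', b⟩ := act_spec (A := A) cs 0 a3 a4
    refine ⟨u', e _ _ e', by rw [b, a6, a7], ?_⟩
    rw [frame e' (act_wr cs 0) (by omega), a5]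
    simp
  | succ k ih =>
    intro u hd h3 h4 h8
    obtain ⟨u₁, e, a3, a4, a8, a5, a6, a7⟩ := key (2 * (k + 1)) u h3 h4 h8
    by_cases c : d = k + 1
    · subst c
      have a5' : (u₁ 5).headD 0 = w := by rw [a5]; push_cast; ring
      obtain ⟨u', e', b⟩ := act_spec (A := A) cs (k + 1) a3 a4
      exact ⟨u', e _ _ (.iteT (by simpa only [Test.Holds, a5'] using w0) e'), by rw [b, a6, a7],
        by rw [frame e' (act_wr cs _) (by omega), a5']⟩
    · obtain ⟨u', e', b, b5⟩ := ih u₁ (by omega) a3 a4 a8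
      have : (d : ℝ) ≤ k := by exact_mod_cast (by omega : d ≤ k)
      exact ⟨u', e _ _ (.iteF (by simp only [Test.Holds, a5]; linarith) e'), by rw [b, a6, a7], b5⟩

/-- Empty a stack. -/
def clear (j : ℕ) : Prog := .loop (.not (.empty j)) (.pop j)

theorem clear_spec (j : ℕ) (u : State) :
    ∃ u', Eval A (clear j) u u' ∧ u' j = [] ∧ ∀ i, i ≠ j → u' i = u i := by
  suffices h : ∀ (l : List ℝ) (u : State), u j = l → ∃ u', Eval A (clear j) u u' ∧ u' j = [] by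
    obtain ⟨u', e, g⟩ := h _ u rfl
    exact ⟨u', e, g, fun i hi => frame (P := (· = j)) e rfl hi⟩
  intro l
  induction l with
  | nil => exact fun u h => ⟨u, .loopF (by simp [Test.Holds, h]), h⟩
  | cons a l ih =>
    intro u h
    obtain ⟨u', e, g⟩ := ih (update u j (u j).tail) (by simp [h])
    exact ⟨u', .loopT (by simp [Test.Holds, h]) (.pop ..) e, g⟩

/-- Push two copies of the top of stack 7 for each unit of the counter. -/
def fill : Prog := .loop (.not (.ge 12)) (sq [.op .add 7 4 11, .op .add 7 4 11, .op .add 12 13 12])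

theorem fill_spec {e : ℝ} (k : ℕ) : ∀ (u : State) (g : ℝ), (u 12).headD 0 = g → -g ≤ k →
    (k = 0 ∨ (k : ℝ) - 1 < -g) → (u 7).headD 0 = e → (u 4).headD 0 = 0 → (u 13).headD 0 = 1 →
    ∃ u', Eval A fill u u' ∧ u' 11 = List.replicate (2 * k) e ++ u 11 := by
  induction k with
  | zero =>
    intro u g h h1 _ _ _ _
    exact ⟨u, .loopF (by simp only [Test.Holds, h, not_not]; simpa using h1), by simp⟩
  | succ k ih =>
    intro u g h h1 h2 h7 h4 h13
    have h3 : (k : ℝ) < -g := by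
      have := h2.resolve_left (by omega)
      push_cast at this
      linarith
    have k0 : (0 : ℝ) ≤ k := by positivity
    obtain ⟨u₁, e₁, a12, a7, a4, a13, a11⟩ : ∃ u₁, Eval A (sq [.op .add 7 4 11, .op .add 7 4 11,
        .op .add 12 13 12]) u u₁ ∧ (u₁ 12).headD 0 = g + 1 ∧ (u₁ 7).headD 0 = e ∧
        (u₁ 4).headD 0 = 0 ∧ (u₁ 13).headD 0 = 1 ∧ u₁ 11 = e :: e :: u 11 := by
      simp only [List.headD_eq_head?_getD] at h h7 h4 h13
      exact ⟨_, .seq (.op ..) (.seq (.op ..) (.op ..)), by simp [h, h7, h4, h13, Op.ev]⟩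
    obtain ⟨u', e', b⟩ := ih u₁ _ a12 (by push_cast at h1; linarith) (Or.inr (by linarith)) a7 a4 a13
    refine ⟨u', .loopT (by simp only [Test.Holds, h]; linarith) e₁ e', ?_⟩
    rw [b, a11, show 2 * (k + 1) = 2 * k + 2 by ring, List.replicate_add, List.append_assoc]
    rfl

/-- Half the length of the question asked in round `n`. -/
noncomputable def len (n : ℕ) (z : ℝ) : ℕ := ⌈(n : ℝ) * (n + cmp z)⌉₊

/-- One round. -/
def rd : Prog := sq [sq [.op .add 10 13 10, .push 15 10, .op .mul 5 15 8], dec cs 4, clear 11,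
  sq [.op .add 10 14 12, .op .mul 10 12 12, .op .sub 4 12 12], fill]

theorem rd_wr : Wr (fun j => ¬ Out j) (rd cs) :=
  ⟨by simp [sq, Wr, Out], (dec_wr cs 4).mono (by unfold Out; omega), by simp [clear, Wr, Out],
    by simp [sq, Wr, Out], by simp [fill, sq, Wr, Out]⟩

variable (d : ℕ → ℕ) (ω : ℕ → ℝ)

/-- State after round `n`. -/
def Iv (z : ℝ) (n : ℕ) (u : State) : Prop :=
  (u 3).headD 0 = z ∧ (u 4).headD 0 = 0 ∧ (u 13).headD 0 = 1 ∧ (u 14).headD 0 = cmp z ∧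
    (u 10).headD 0 = n ∧ (u 5).headD 0 = ω n ∧ (u 6, u 7) = st cs d z n ∧
    u 11 = List.replicate (2 * len n z) ((st cs d z n).2.headD 0)

variable {cs d ω}

theorem rd_spec (hd : ∀ n, d n ≤ 4)
    (hω : ∀ n, 0 ≤ ω n ∧ ω n ≤ 1 ∧ 10 * ω n = 2 * d n + ω (n + 1)) {z : ℝ} {n : ℕ} {u : State}
    (h : Iv cs d ω z n u) : ∃ u', Eval A (rd cs) u u' ∧ Iv cs d ω z (n + 1) u' := by
  obtain ⟨h3, h4, h13, h14, h10, h5, h67, -⟩ := h
  obtain ⟨u₁, e₁, a10, a8, f₁⟩ : ∃ u₁, Eval A (sq [.op .add 10 13 10, .push 15 10,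
      .op .mul 5 15 8]) u u₁ ∧ (u₁ 10).headD 0 = (n + 1 : ℕ) ∧
      (u₁ 8).headD 0 = 2 * d n + ω (n + 1) ∧ ∀ i, i ≠ 10 → i ≠ 15 → i ≠ 8 → u₁ i = u i := by
    simp only [List.headD_eq_head?_getD] at h10 h13 h5
    refine ⟨_, .seq (.op ..) (.seq (.push ..) (.op ..)), ?_⟩
    have := (hω n).2.2
    simp +contextual [h10, h13, h5, Op.ev]
    linarith
  obtain ⟨u₂, e₂, b67, b5⟩ := dec_spec (A := A) cs (z := z) (hω (n + 1)).1 (hω (n + 1)).2.1 4 u₁
    (hd n) (by rw [f₁ 3] <;> first | exact h3 | omega) (by rw [f₁ 4] <;> first | exact h4 | omega) a8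
  rw [f₁ 6 (by simp) (by simp) (by simp), f₁ 7 (by simp) (by simp) (by simp), h67, ← st] at b67
  have f₂ := fun j => frame e₂ (dec_wr cs 4) (j := j)
  obtain ⟨u₃, e₃, c11, f₃⟩ := clear_spec (A := A) 11 u₂
  have g : ∀ i, i = 3 ∨ i = 4 ∨ i = 13 ∨ i = 14 → u₃ i = u i := fun i hi =>
    ((f₃ i (by omega)).trans (f₂ i (by omega))).trans (f₁ i (by omega) (by omega) (by omega))
  have c10 : (u₃ 10).headD 0 = (n + 1 : ℕ) := by rw [f₃ 10 (by omega), f₂ 10 (by omega), a10]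
  obtain ⟨u₄, e₄, d12, f₄⟩ : ∃ u₄, Eval A (sq [.op .add 10 14 12, .op .mul 10 12 12,
      .op .sub 4 12 12]) u₃ u₄ ∧ (u₄ 12).headD 0 = -(((n + 1 : ℕ) : ℝ) * ((n + 1 : ℕ) + cmp z)) ∧
      ∀ i, i ≠ 12 → u₄ i = u₃ i := by
    simp only [List.headD_eq_head?_getD] at c10 h14 h4
    refine ⟨_, .seq (.op ..) (.seq (.op ..) (.op ..)), ?_⟩
    simp +contextual [c10, g, h14, h4, Op.ev]
  have c7 : u₄ 7 = (st cs d z (n + 1)).2 := by rw [f₄ 7 (by omega), f₃ 7 (by omega), ← b67]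
  have p : 0 ≤ ((n + 1 : ℕ) : ℝ) * ((n + 1 : ℕ) + cmp z) := by
    have := (cmp_bd z).1
    positivity
  obtain ⟨u₅, e₅, k11⟩ := fill_spec (A := A) (len (n + 1) z) u₄ _ d12
    (by rw [neg_neg]; exact Nat.le_ceil _)
    (Or.inr (by rw [neg_neg]; have := Nat.ceil_lt_add_one p; unfold len; linarith))
    (congrArg (·.headD 0) c7) (by rw [f₄ 4, g 4] <;> first | exact h4 | omega) (by rw [f₄ 13, g 13] <;> first | exact h13 | omega)
  have f₅ : ∀ i, i ≠ 11 → i ≠ 12 → u₅ i = u₃ i := fun i a b =>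
    (frame (P := fun j => j = 11 ∨ j = 12) e₅ (by simp [fill, sq, Wr]) (by omega)).trans (f₄ i b)
  refine ⟨u₅, .seq e₁ (.seq e₂ (.seq e₃ (.seq e₄ e₅))), ?_, ?_, ?_, ?_, ?_, ?_, ?_, ?_⟩
  · rw [f₅ 3, g 3] <;> first | exact h3 | omega
  · rw [f₅ 4, g 4] <;> first | exact h4 | omega
  · rw [f₅ 13, g 13] <;> first | exact h13 | omega
  · rw [f₅ 14, g 14] <;> first | exact h14 | omega
  · rw [f₅ 10 (by omega) (by omega), c10]
  · rw [f₅ 5 (by omega) (by omega), f₃ 5 (by omega), b5]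
  · rw [f₅ 6 (by omega) (by omega), f₅ 7 (by omega) (by omega), f₃ 6 (by omega), f₃ 7 (by omega), b67]
  · rw [k11, f₄ 11 (by omega), c11, List.append_nil]

end Pool.Agent.MP_833094_lc.En
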