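import Pool.Agent.MP_833094_lc.En.Run

/-! Entry sets of oracles above the Halting problem: the sufficient condition. -/

namespace Pool.Agent.MP_833094_lc.En

open Function Polynomial Filter

theorem len_bd {n : ℕ} (hn : 1 ≤ n) (z : ℝ) : n * n < len n z ∧ len n z ≤ n * n + 2 * n := by
  obtain ⟨a, b, -⟩ := cmp_bd z
  have n0 : (0 : ℝ) < n := by exact_mod_cast hn
  refine ⟨Nat.lt_ceil.2 ?_, Nat.ceil_le.2 ?_⟩ <;> push_cast <;> nlinarith

theorem len_inj {n n' : ℕ} {z z' : ℝ} (hn : 1 ≤ n) (h : len n' z' = len n z) :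
    n' = n ∧ n * |cmp z' - cmp z| < 1 := by
  have a := len_bd hn z
  have hn' : 1 ≤ n' := by
    by_contra c
    obtain rfl : n' = 0 := by omega
    rw [← h] at a
    simp [len] at a
  have b := len_bd hn' z'
  obtain rfl : n' = n := by
    rcases lt_trichotomy n' n with c | c | c
    · nlinarith
    · exact c
    · nlinarith
  refine ⟨rfl, ?_⟩
  have p : ∀ y, 0 ≤ (n' : ℝ) * (n' + cmp y) := fun y => by have := (cmp_bd y).1; positivity
  have c1 := Nat.ceil_lt_add_one (p z)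
  have c2 := Nat.ceil_lt_add_one (p z')
  have c3 := Nat.le_ceil ((n' : ℝ) * (n' + cmp z))
  have c4 := Nat.le_ceil ((n' : ℝ) * (n' + cmp z'))
  unfold len at h
  rw [h] at c2 c4
  rw [← Nat.abs_cast, ← abs_mul, abs_lt]
  constructor <;> linarith

variable (E B : Set ℝ) (cs : List ℝ) (d : ℕ → ℕ)

/-- The data determine membership. -/
def Dc (l : ℕ) (e : ℝ) : Prop := ∀ n z n' z', len n z = l → (st cs d z n).2.headD 0 = e →
  len n' z' = l → (st cs d z' n').2.headD 0 = e → z ∈ B → z' ∈ B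

/-- The data come from a member. -/
def Ys (l : ℕ) (e : ℝ) : Prop := ∃ n z, len n z = l ∧ (st cs d z n).2.headD 0 = e ∧ z ∈ B

/-- The oracle. -/
def Oc : Set (List ℝ) := {L | ∃ l e, e ∈ E ∧ 1 ≤ l ∧
  (L = List.replicate (2 * l) e ∧ Dc B cs d l e ∨ L = List.replicate (2 * l + 1) e ∧ Ys B cs d l e)}

variable {E B cs d}

theorem oc_even (l : ℕ) (e : ℝ) :
    List.replicate (2 * l) e ∈ Oc E B cs d ↔ e ∈ E ∧ 1 ≤ l ∧ Dc B cs d l e := by
  refine ⟨?_, fun h => ⟨l, e, h.1, h.2.1, Or.inl ⟨rfl, h.2.2⟩⟩⟩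
  rintro ⟨l', e', a, b, ⟨c, g⟩ | ⟨c, g⟩⟩ <;> rw [List.replicate_inj] at c
  · obtain rfl : l = l' := by omega
    obtain rfl := c.2.resolve_left (by omega)
    exact ⟨a, b, g⟩
  · omega

theorem oc_odd {l : ℕ} {e : ℝ} (he : e ∈ E) (hl : 1 ≤ l) :
    List.replicate (2 * l + 1) e ∈ Oc E B cs d ↔ Ys B cs d l e := by
  refine ⟨?_, fun h => ⟨l, e, he, hl, Or.inr ⟨rfl, h⟩⟩⟩
  rintro ⟨l', e', a, b, ⟨c, g⟩ | ⟨c, g⟩⟩ <;> rw [List.replicate_inj] at c
  · omega
  · obtain rfl : l = l' := by omega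
    obtain rfl := c.2.resolve_left (by omega)
    exact g

theorem exists_stop (hd : ∀ f, Comp cs f → ∀ N, ∃ n, N ≤ n ∧ ∀ z, (st cs d z n).2.headD 0 = f z)
    {z : ℝ} {f : ℝ → ℝ} (hf : Comp cs f) (he : f z ∈ E) (hz : {y | f y = f z}.Finite) :
    ∃ n, List.replicate (2 * len n z) ((st cs d z n).2.headD 0) ∈ Oc E B cs d := by
  have h1 : ∀ᶠ n : ℕ in atTop, ∀ y ∈ {y | f y = f z}, y ≠ z → 1 ≤ n * |cmp y - cmp z| :=
    (eventually_all_finite hz).2 fun y _ => by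
      by_cases c : y = z
      · exact Eventually.of_forall fun _ h => absurd c h
      · have p : 0 < |cmp y - cmp z| := abs_pos.2 (sub_ne_zero.2 fun e => c (cmp_inj e))
        exact ((tendsto_natCast_atTop_atTop.atTop_mul_const p).eventually_ge_atTop 1).mono
          fun _ h _ => h
  obtain ⟨N, hN⟩ := eventually_atTop.1 h1
  obtain ⟨n, a, b⟩ := hd f hf (N + 1)
  have k : ∀ n' y, len n' y = len n z → (st cs d y n').2.headD 0 = f z → y = z := fun n' y c e => by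
    obtain ⟨rfl, g⟩ := len_inj (by omega) c
    by_contra h
    have := hN n' (by omega) y ((b y).symm.trans e) h
    linarith
  refine ⟨n, (oc_even _ _).2 ⟨by rwa [b], by have := len_bd (n := n) (by omega) z; omega, ?_⟩⟩
  rw [b]
  intro n₁ z₁ n₂ z₂ c1 c2 c3 c4
  rw [k _ _ c1 c2, k _ _ c3 c4]
  exact id

variable {ω : ℕ → ℝ} (hd : ∀ n, d n ≤ 4)
  (hω : ∀ n, 0 ≤ ω n ∧ ω n ≤ 1 ∧ 10 * ω n = 2 * d n + ω (n + 1))
include hd hω

theorem loop_spec {A : Set (List ℝ)} {z : ℝ} (k : ℕ) : ∀ (n : ℕ) (u : State), Iv cs d ω z n u →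
    List.replicate (2 * len (n + k) z) ((st cs d z (n + k)).2.headD 0) ∈ A →
    ∃ u' n', Eval A (.loop (.not (.ask 11)) (rd cs)) u u' ∧ Iv cs d ω z n' u' ∧ u' 11 ∈ A := by
  induction k with
  | zero =>
    intro n u h g
    rw [add_zero, ← h.2.2.2.2.2.2.2] at g
    exact ⟨u, n, .loopF (not_not.2 g), h, g⟩
  | succ k ih =>
    intro n u h g
    by_cases c : u 11 ∈ A
    · exact ⟨u, n, .loopF (not_not.2 c), h, c⟩
    obtain ⟨u₁, e₁, h₁⟩ := rd_spec (A := A) hd hω h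
    obtain ⟨u', n', e, r⟩ := ih (n + 1) u₁ h₁ (by rwa [show n + 1 + k = n + (k + 1) by omega])
    exact ⟨u', n', .loopT c e₁ e, r⟩

omit hd hω in
variable (cs ω) in
/-- Decide membership of the top of stack 3. -/
def search : Prog := sq [sq [.push 13 1, .ite (.ge 3) (sq [.op .add 13 3 14, .op .div 13 14 14])
    (sq [.op .sub 13 3 14, .op .div 13 14 14, .op .add 13 14 14]), .push 10 0, .push 5 (ω 0)],
  clear 6, clear 7, clear 11, .loop (.not (.ask 11)) (rd cs), .op .add 7 4 11,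
  .ite (.ask 11) (.push 2 0) (.push 2 (-1))]

omit hd hω in
theorem search_wr : Wr (fun j => ¬ Out j) (search cs ω) :=
  ⟨by simp [sq, Wr, Out], by simp [clear, Wr, Out], by simp [clear, Wr, Out],
    by simp [clear, Wr, Out], rd_wr cs, by simp [sq, Wr, Out]⟩

theorem search_spec {z : ℝ} {u : State}
    (hz : ∃ n, List.replicate (2 * len n z) ((st cs d z n).2.headD 0) ∈ Oc E B cs d)
    (h3 : (u 3).headD 0 = z) (h4 : (u 4).headD 0 = 0) :
    ∃ u', Eval (Oc E B cs d) (search cs ω) u u' ∧ (u' 3).headD 0 = z ∧ (u' 4).headD 0 = 0 ∧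
      (0 ≤ (u' 2).headD 0 ↔ z ∈ B) := by
  obtain ⟨u₁, e₁, a⟩ : ∃ u₁, Eval (Oc E B cs d) (sq [.push 13 1,
      .ite (.ge 3) (sq [.op .add 13 3 14, .op .div 13 14 14])
      (sq [.op .sub 13 3 14, .op .div 13 14 14, .op .add 13 14 14]), .push 10 0, .push 5 (ω 0)])
      u u₁ ∧ (u₁ 3).headD 0 = z ∧ (u₁ 4).headD 0 = 0 ∧ (u₁ 13).headD 0 = 1 ∧
      (u₁ 14).headD 0 = cmp z ∧ (u₁ 10).headD 0 = (0 : ℕ) ∧ (u₁ 5).headD 0 = ω 0 := by
    simp only [List.headD_eq_head?_getD] at h3 h4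
    by_cases hy : 0 ≤ z
    · refine ⟨_, .seq (.push ..) (.seq (.iteT (by simpa [Test.Holds, h3] using hy)
        (.seq (.op ..) (.op ..))) (.seq (.push ..) (.push ..))), ?_⟩
      simp [h3, h4, Op.ev, cmp, hy]
    · refine ⟨_, .seq (.push ..) (.seq (.iteF (by simpa [Test.Holds, h3] using hy)
        (.seq (.op ..) (.seq (.op ..) (.op ..)))) (.seq (.push ..) (.push ..))), ?_⟩
      simp [h3, h4, Op.ev, cmp, hy]
  obtain ⟨u₂, e₂, b, f₂⟩ := clear_spec (A := Oc E B cs d) 6 u₁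
  obtain ⟨u₃, e₃, c, f₃⟩ := clear_spec (A := Oc E B cs d) 7 u₂
  obtain ⟨u₄, e₄, g, f₄⟩ := clear_spec (A := Oc E B cs d) 11 u₃
  have f : ∀ i, i ≠ 6 → i ≠ 7 → i ≠ 11 → u₄ i = u₁ i := fun i x y w =>
    ((f₄ i w).trans (f₃ i y)).trans (f₂ i x)
  have i0 : Iv cs d ω z 0 u₄ := by
    unfold Iv
    rw [f 3, f 4, f 13, f 14, f 10, f 5, f₄ 6, f₃ 6, b, f₄ 7, c, g] <;> try omega
    exact ⟨a.1, a.2.1, a.2.2.1, a.2.2.2.1, a.2.2.2.2.1, a.2.2.2.2.2, rfl, by simp [len]⟩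
  obtain ⟨k, hk⟩ := hz
  obtain ⟨u₅, n, e₅, ⟨j3, j4, -, -, -, -, j7, j11⟩, m⟩ := loop_spec hd hω k 0 u₄ i0
    (by rwa [zero_add])
  rw [j11, oc_even] at m
  have j7' : (u₅ 7).headD 0 = (st cs d z n).2.headD 0 := by rw [← j7]
  have t : Test.Holds (Oc E B cs d) (update u₅ 11 (Op.add.ev ((u₅ 7).headD 0) ((u₅ 4).headD 0) ::
      u₅ 11)) (.ask 11) ↔ z ∈ B := by
    rw [Test.Holds, update_self, j7', j4, j11, Op.ev, add_zero, ← List.replicate_succ,
      oc_odd m.1 m.2.1]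
    exact ⟨fun ⟨n', z', x, y, w⟩ => m.2.2 n' z' n z x y rfl rfl w, fun h => ⟨n, z, rfl, rfl, h⟩⟩
  simp only [List.headD_eq_head?_getD] at j3 j4
  by_cases hB : z ∈ B
  · exact ⟨_, .seq e₁ (.seq e₂ (.seq e₃ (.seq e₄ (.seq e₅ (.seq (.op ..)
      (.iteT (t.2 hB) (.push ..))))))), by simp [j3, j4, hB]⟩
  · exact ⟨_, .seq e₁ (.seq e₂ (.seq e₃ (.seq e₄ (.seq e₅ (.seq (.op ..)
      (.iteF (mt t.1 hB) (.push ..))))))), by simp [j3, j4, hB]⟩

omit hd hω in
variable (cs ω) in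
/-- Decide whether stack `j` is a one entry list with entry in the given set. -/
def wrap (j : ℕ) : Prog := .seq (.push 4 0) (.ite (.empty j) (.push 2 (-1))
  (sq [.op .add j 4 3, .pop j, .ite (.empty j) (search cs ω) (.push 2 (-1)), .op .add 3 4 j]))

theorem wrap_spec
    (hz : ∀ z, ∃ n, List.replicate (2 * len n z) ((st cs d z n).2.headD 0) ∈ Oc E B cs d)
    (j : ℕ) (hj : Out j) (u : State) : ∃ u', Eval (Oc E B cs d) (wrap cs ω j) u u' ∧
      (∀ k, Out k → u' k = u k) ∧ (0 ≤ (u' 2).headD 0 ↔ u j ∈ (fun a => [a]) '' B) := by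
  have o : ∀ k, Out k → k ≠ 2 ∧ k ≠ 3 ∧ k ≠ 4 := fun k h => by unfold Out at h; omega
  obtain ⟨j2, j3, j4⟩ := o j hj
  rcases hu : u j with _ | ⟨z, l⟩
  · exact ⟨_, .seq (.push ..) (.iteT (by simp [Test.Holds, j4, hu]) (.push ..)),
      fun k h => by simp [o k h], by simp⟩
  obtain ⟨u₁, e₁, a3, a4, aj, f₁⟩ : ∃ u₁, (∀ u₂ u₃, Eval (Oc E B cs d)
      (.ite (.empty j) (search cs ω) (.push 2 (-1))) u₁ u₂ → Eval (Oc E B cs d) (.op .add 3 4 j) u₂ u₃ →
      Eval (Oc E B cs d) (wrap cs ω j) u u₃) ∧ (u₁ 3).headD 0 = z ∧ (u₁ 4).headD 0 = 0 ∧ u₁ j = l ∧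
      ∀ k, Out k → k ≠ j → u₁ k = u k :=
    ⟨_, fun _ _ x y => .seq (.push ..) (.iteF (by simp [Test.Holds, j4, hu])
      (.seq (.op ..) (.seq (.pop ..) (.seq x y)))), by simp [j3, j4, j3.symm, hu, Op.ev],
      by simp [j4.symm], by simp [j3, j4, hu], fun k h n => by simp [o k h, n]⟩
  obtain ⟨u₂, e₂, b3, b4, f₂, b2⟩ : ∃ u₂, Eval (Oc E B cs d)
      (.ite (.empty j) (search cs ω) (.push 2 (-1))) u₁ u₂ ∧ (u₂ 3).headD 0 = z ∧
      (u₂ 4).headD 0 = 0 ∧ (∀ k, Out k → u₂ k = u₁ k) ∧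
      (0 ≤ (u₂ 2).headD 0 ↔ z :: l ∈ (fun a => [a]) '' B) := by
    by_cases c : l = []
    · obtain ⟨u₂, e, x, y, w⟩ := search_spec hd hω (hz z) a3 a4
      exact ⟨u₂, .iteT (aj.trans c) e, x, y, fun k h => frame e search_wr (not_not.2 h),
        by rw [w, c]; simp⟩
    · refine ⟨_, .iteF (fun h => c (aj.symm.trans h)) (.push ..), by simpa using a3,
        by simpa using a4, fun k h => by simp [o k h], ?_⟩
      simp [c, eq_comm]
  refine ⟨_, e₁ _ _ e₂ (.op ..), fun k h => ?_, by rwa [update_of_ne j2.symm]⟩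
  by_cases c : k = j
  · subst c
    rw [update_self, b3, b4, f₂ k h, aj, hu, Op.ev, add_zero]
  · rw [update_of_ne c, f₂ k h, f₁ k h c]

omit hd hω

theorem sufficient {c : Finset ℝ} (h : ∀ s : ℝ, Transcendental (Subfield.closure (c : Set ℝ)) s →
    ∃ e ∈ E, e ∈ Subfield.closure (insert s (c : Set ℝ)) ∧ e ∉ Subfield.closure (c : Set ℝ))
    (S : Set (List ℝ)) : ∃ A : Set (List ℝ), (∀ a ∈ A, ∀ e ∈ a, e ∈ E) ∧ Reduces S A := by
  obtain ⟨e₀, h0⟩ : E.Nonempty := by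
    have k : Countable (Subfield.closure (c : Set ℝ)) := by
      rw [← Cardinal.mk_le_aleph0_iff]
      exact (Subfield.cardinalMk_closure_le_max _).trans
        (max_le (Cardinal.mk_le_aleph0_iff.2 c.countable_toSet.to_subtype) le_rfl)
    have : ∃ s : ℝ, Transcendental (Subfield.closure (c : Set ℝ)) s := by
      by_contra n
      push Not at n
      refine Cardinal.not_countable_real ((Algebraic.countable (Subfield.closure (c : Set ℝ)) ℝ).mono
        fun s _ => not_not.1 (n s))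
    obtain ⟨s, hs⟩ := this
    obtain ⟨e, he, -⟩ := h s hs
    exact ⟨e, he⟩
  obtain ⟨cs, hcs⟩ : ∃ cs : List ℝ, cs = 1 :: e₀ :: c.toList := ⟨_, rfl⟩
  have h1 : 1 ∈ cs := by simp [hcs]
  have hc : ∀ x ∈ (c : Set ℝ), x ∈ cs := fun x hx => by simp [hcs, Finset.mem_coe.1 hx]
  obtain ⟨d, hd, good⟩ := exists_good cs
  obtain ⟨ω, hω⟩ := exists_omega hd
  obtain ⟨B, hB⟩ := line_oracle S
  refine ⟨Oc E B cs d, ?_, reduces_sub (wrap_spec hd hω fun z => ?_) hB⟩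
  · rintro _ ⟨l, e, a, -, ⟨rfl, -⟩ | ⟨rfl, -⟩⟩ x hx <;> rwa [List.eq_of_mem_replicate hx]
  set K := Subfield.closure (c : Set ℝ) with hK
  by_cases t : IsAlgebraic K z
  · obtain ⟨p, p0, p1⟩ := t
    refine exists_stop good ((Comp.poly h1 hc p).add (Comp.const (c := e₀) (by simp [hcs])))
      (by simpa [p1] using h0) ?_
    refine (finite_setOfPred_isRoot (Polynomial.map_ne_zero (f := algebraMap K ℝ) p0)).subset
      fun y hy => ?_
    simpa [p1, eval_map_algebraMap] using hy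
  obtain ⟨e, he, m, nm⟩ := h z t
  have m' : e ∈ IntermediateField.adjoin K {z} :=
    Subfield.closure_le (t := (IntermediateField.adjoin K {z}).toSubfield) |>.2
      (Set.insert_subset (IntermediateField.mem_adjoin_simple_self K z) fun x hx =>
        (IntermediateField.adjoin K {z}).algebraMap_mem ⟨x, Subfield.subset_closure hx⟩) m
  obtain ⟨r, s, rfl⟩ := (IntermediateField.mem_adjoin_simple_iff K e).1 m'
  refine exists_stop good ((Comp.poly h1 hc r).div (Comp.poly h1 hc s)) he ?_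
  generalize aeval z r / aeval z s = e at nm
  have e0 : e ≠ 0 := fun g => nm (g ▸ zero_mem K)
  by_cases s0 : s = 0
  · simp [s0, e0.symm]
  have n : r.map (algebraMap K ℝ) - C e * s.map (algebraMap K ℝ) ≠ 0 := fun g => by
    have a := congrArg (coeff · s.natDegree) (sub_eq_zero.1 g)
    simp only [coeff_C_mul, coeff_map] at a
    have b : algebraMap K ℝ (s.coeff s.natDegree) ≠ 0 :=
      (_root_.map_ne_zero _).2 (leadingCoeff_ne_zero.2 s0)
    exact nm ((eq_div_of_mul_eq b a.symm).symm ▸ div_mem (r.coeff _).2 (s.coeff _).2)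
  refine (finite_setOfPred_isRoot n).subset fun y hy => ?_
  have y0 : aeval y s ≠ 0 := fun g => e0 (by simpa [g] using Eq.symm hy)
  have := (div_eq_iff y0).1 hy
  simp [eval_map_algebraMap, this]

end Pool.Agent.MP_833094_lc.En
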